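import Pool.Agent.MP_d539bc_co.BettiMain

open Pool.Agent.MP_d539bc_co

theorem Pool.Agent.Results.MP_d539bc_co.CsBettiBound.result (d : ℕ) (hd : 4 ≤ d) (V : Type)
    [Fintype V] [DecidableEq V] (K : AbstractSimplicialComplex V) (hdim : HasDim K d)
    (φ : V → V) (hφ : ∀ v, φ (φ v) = v)
    (hcs : ∀ s ∈ K.faces, s.image φ ∈ K.faces ∧ s.image φ ≠ s)
    (hK : IsConnManifold K ∨ IsNormalPM K d) :
    ((d.choose 2 : ℕ) : ℤ) - (d : ℤ) + 2 * (d : ℤ) * (symBetti K φ 1 : ℤ) +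
      (d : ℤ) * ((d : ℤ) - 1) * (symBetti K φ (-1) : ℤ) ≤ g2 K d := by
  obtain ⟨k, rfl⟩ : ∃ k, d = k + 1 := ⟨d - 1, by omega⟩
  have hpm : PM K (k + 1) ∧ LocS K (k + 1) := by
    rcases hK with h | h
    · exact ⟨pm_of_manifold (by omega) hdim h, locS_of_manifold (by omega) hdim h⟩
    · exact ⟨pm_of_normal (by omega) h, locS_of_normal (by omega) h⟩
  have h := main_betti (by omega) hφ hcs hpm.1 hpm.2 (hdim.2.imp (fun _ h => h.1))
  have hch : (k + 1 + 1).choose 2 = (k + 1).choose 2 + (k + 1) := by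
    rw [Nat.choose_succ_succ' (k + 1) 1, Nat.choose_one_right, add_comm]
  have h2 : 2 * (k + 1).choose 2 = (k + 1) * k := by
    rw [Nat.choose_two_right, Nat.add_sub_cancel, Nat.mul_div_cancel' (by
      rw [mul_comm]; exact (Nat.even_mul_succ_self k).two_dvd)]
  rw [← mul_assoc, h2] at h
  rw [g2, numFaces_one, hch]
  zify at h
  push_cast
  linarith
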