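import Pool.Agent.Mg.F5cfbf6.Gd9f95d

open Pool.Agent.MP_d539bc_co

theorem Pool.Agent.Results.MP_d539bc_co.CsLowerBound.result (d : ℕ) (hd : 4 ≤ d) (V : Type)
    [Fintype V] [DecidableEq V] (K : AbstractSimplicialComplex V) (hdim : HasDim K d)
    (hcs : IsCS K) (hK : IsSphere K ∨ IsConnManifold K ∨ IsNormalPM K d) :
    ((d.choose 2 : ℕ) : ℤ) - (d : ℤ) ≤ g2 K d ∧
      (g2 K d = ((d.choose 2 : ℕ) : ℤ) - (d : ℤ) ↔ IsStackedBoundary K d) := by
  have hpm : PM K d := by
    rcases hK with h | h | h
    · exact pm_of_sphere (by omega) hdim h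
    · exact pm_of_manifold (by omega) hdim h
    · exact pm_of_normal (by omega) h
  have h := main_pm hd hcs hpm (hdim.2.imp (fun _ h => h.1))
  have hch : (d + 1).choose 2 = d.choose 2 + d := by
    rw [Nat.choose_succ_succ' d 1, Nat.choose_one_right, add_comm]
  rw [g2, numFaces_one, hch]
  refine ⟨?_, fun heq => h.2 ?_, fun hs => ?_⟩
  · have := h.1
    zify at this
    push_cast
    linarith
  · zify
    push_cast at heq
    linarith
  · have := count_of_stacked (by omega) hs
    zify at this
    push_cast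
    linarith
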